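import Mathlib

set_option autoImplicit false

namespace Pool.Agent.H.MP_c6b127_co

variable {F : Type} [Field F] [Fintype F]

lemma two_eq (hF : Fintype.card F = 32) : (2 : F) = 0 := by
  have h := FiniteField.cast_card_eq_zero F
  rw [hF] at h
  have : (2 : F) ^ 5 = 0 := by
    rw [← h]
    norm_num
  exact pow_eq_zero_iff (by norm_num) |>.mp this

lemma pow31 (hF : Fintype.card F = 32) (x : F) (hx : x ≠ 0) : x ^ 31 = 1 := by
  have := FiniteField.pow_card_sub_one_eq_one x hx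
  rwa [hF] at this

lemma aniso (hF : Fintype.card F = 32) (a u : F) (h : a ^ 2 + a * u + u ^ 2 = 0) :
    a = 0 ∧ u = 0 := by
  have h2 := two_eq hF
  have h3 : a ^ 3 = u ^ 3 := by linear_combination (a - u) * h
  have hu : u = 0 := by
    by_contra hu
    have ha : a ≠ 0 := by
      rintro rfl
      exact hu (pow_eq_zero_iff (n := 3) (by norm_num) |>.mp (by rw [← h3]; simp))
    have e1 : a ^ 31 = a * (a ^ 3) ^ 10 := by ring
    have e2 : u ^ 31 = u * (u ^ 3) ^ 10 := by ring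
    have e3 : a = u := by
      rw [pow31 hF a ha, h3] at e1
      rw [pow31 hF u hu] at e2
      exact mul_right_cancel₀ (pow_ne_zero 10 (pow_ne_zero 3 hu)) (e1.symm.trans e2)
    subst e3
    exact hu (pow_eq_zero_iff (n := 2) (by norm_num) |>.mp (by linear_combination h - a ^ 2 * h2))
  subst hu
  exact ⟨pow_eq_zero_iff (n := 2) (by norm_num) |>.mp (by linear_combination h), rfl⟩

lemma dickson (hF : Fintype.card F = 32) (a x y : F)
    (h : x ^ 5 + a ^ 2 * x ^ 3 + a ^ 4 * x = y ^ 5 + a ^ 2 * y ^ 3 + a ^ 4 * y) : x = y := by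
  have h2 := two_eq hF
  by_contra hxy
  have h1 : x ^ 4 + x ^ 3 * y + x ^ 2 * y ^ 2 + x * y ^ 3 + y ^ 4 + a ^ 2 * (x ^ 2 + x * y + y ^ 2) +
      a ^ 4 = 0 := mul_left_cancel₀ (sub_ne_zero.mpr hxy) (by linear_combination h)
  obtain ⟨h3, h4⟩ := aniso hF (x * y + a ^ 2) (x ^ 2 + y ^ 2 + a ^ 2) (by
    linear_combination h1 + (x ^ 2 * y ^ 2 + a ^ 2 * (x * y) + a ^ 2 * (x ^ 2 + y ^ 2) + a ^ 4) * h2)
  obtain ⟨h5, h6⟩ := aniso hF x y (by linear_combination h3 + h4 - a ^ 2 * h2)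
  exact hxy (h5.trans h6.symm)

/-- directions of the hyperoval -/
def dir : F ⊕ Bool → F × F × F
  | Sum.inl t => (1, t, t ^ 6)
  | Sum.inr false => (0, 1, 0)
  | Sum.inr true => (0, 0, 1)

lemma six_inj (hF : Fintype.card F = 32) (s t : F) (h : s ^ 6 = t ^ 6) : s = t := by
  by_cases hs : s = 0
  · subst hs
    exact (pow_eq_zero_iff (n := 6) (by norm_num) |>.mp (by rw [← h]; simp)).symm
  have ht : t ≠ 0 := by
    rintro rfl
    exact hs (pow_eq_zero_iff (n := 6) (by norm_num) |>.mp (by rw [h]; simp))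
  have e1 : s ^ 31 = s * (s ^ 6) ^ 5 := by ring
  have e2 : t ^ 31 = t * (t ^ 6) ^ 5 := by ring
  rw [pow31 hF s hs, h] at e1
  rw [pow31 hF t ht] at e2
  exact mul_right_cancel₀ (pow_ne_zero 5 (pow_ne_zero 6 ht)) (e1.symm.trans e2)

lemma three_aff (hF : Fintype.card F = 32) (r s t a b c : F) (hrs : r ≠ s) (hrt : r ≠ t)
    (hst : s ≠ t) (h1 : a + b + c = 0) (h2 : a * r + b * s + c * t = 0)
    (h3 : a * r ^ 6 + b * s ^ 6 + c * t ^ 6 = 0) : b = 0 := by
  have h0 := two_eq hF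
  obtain ⟨x, rfl⟩ : ∃ x, s = r + x := ⟨s - r, by ring⟩
  obtain ⟨y, rfl⟩ : ∃ y, t = r + y := ⟨t - r, by ring⟩
  have hx : x ≠ 0 := fun h => hrs (by simp [h])
  by_contra hb
  have e1 : b * x + c * y = 0 := by linear_combination h2 - r * h1
  have e2 : b * x * (x ^ 5 + r ^ 2 * x ^ 3 + r ^ 4 * x) =
      b * x * (y ^ 5 + r ^ 2 * y ^ 3 + r ^ 4 * y) := by
    linear_combination h3 - r ^ 6 * h1 - (y ^ 5 + r ^ 2 * y ^ 3 + r ^ 4 * y) * e1 -
      (b * (3 * r ^ 5 * x + 7 * r ^ 4 * x ^ 2 + 10 * r ^ 3 * x ^ 3 + 7 * r ^ 2 * x ^ 4 + 3 * r * x ^ 5) +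
       c * (3 * r ^ 5 * y + 7 * r ^ 4 * y ^ 2 + 10 * r ^ 3 * y ^ 3 + 7 * r ^ 2 * y ^ 4 + 3 * r * y ^ 5)) * h0
  exact hst (by rw [dickson hF r x y (mul_left_cancel₀ (mul_ne_zero hb hx) e2)])

omit [Fintype F] in
lemma two_aff (p q a b : F) (hpq : p ≠ q) (h1 : a + b = 0) (h2 : a * p + b * q = 0) :
    a = 0 ∧ b = 0 := by
  have : b = 0 := mul_left_cancel₀ (sub_ne_zero.mpr hpq.symm) (by linear_combination h2 - p * h1)
  exact ⟨by linear_combination h1 - this, this⟩

lemma indep3 (hF : Fintype.card F = 32) (i j k : F ⊕ Bool) (a b c : F) (hij : i ≠ j) (hik : i ≠ k)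
    (hjk : j ≠ k) (h : a • dir i + b • dir j + c • dir k = 0) : b = 0 := by
  have six : ∀ s t : F, s ≠ t → s ^ 6 ≠ t ^ 6 := fun s t hst h => hst (six_inj hF s t h)
  rcases i with r | _ | _ <;> rcases j with s | _ | _ <;> rcases k with t | _ | _ <;>
    simp only [dir, Prod.smul_mk, smul_eq_mul, Prod.mk_add_mk, Prod.mk_eq_zero, mul_one, mul_zero,
      add_zero, zero_add, ne_eq, Sum.inl.injEq, not_true_eq_false] at h hij hik hjk
  · exact three_aff hF r s t a b c hij hik hjk h.1 h.2.1 h.2.2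
  · exact (two_aff _ _ a b (six _ _ hij) h.1 h.2.2).2
  · exact (two_aff _ _ a b hij h.1 h.2.1).2
  · obtain ⟨h1, h2⟩ := two_aff _ _ a c (six _ _ hik) h.1 h.2.2
    simpa [h1, h2] using h.2.1
  · simpa [h.1] using h.2.1
  · obtain ⟨h1, h2⟩ := two_aff _ _ a c hik h.1 h.2.1
    simpa [h1, h2] using h.2.2
  · simpa [h.1] using h.2.2
  · exact (two_aff _ _ b c (six _ _ hjk) h.1 h.2.2).1
  · exact h.1
  · simpa [h.1] using h.2.2
  · exact (two_aff _ _ b c hjk h.1 h.2.1).1
  · exact h.1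
  · simpa [h.1] using h.2.1

omit [Fintype F] in
lemma indep2 (i j : F ⊕ Bool) (a b : F) (hij : i ≠ j) (h : a • dir i + b • dir j = 0) :
    b = 0 := by
  rcases i with r | _ | _ <;> rcases j with s | _ | _ <;>
    simp only [dir, Prod.smul_mk, smul_eq_mul, Prod.mk_add_mk, Prod.mk_eq_zero, mul_one, mul_zero,
      add_zero, zero_add, ne_eq, Sum.inl.injEq, not_true_eq_false] at h hij
  · exact (two_aff _ _ a b hij h.1 h.2.1).2
  · simpa [h.1] using h.2.1
  · simpa [h.1] using h.2.2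
  · exact h.1
  · exact h.2.2
  · exact h.1
  · exact h.2.1

omit [Fintype F] in
lemma indep1 (i : F ⊕ Bool) (a : F) (h : a • dir i = 0) : a = 0 := by
  rcases i with r | _ | _ <;> simp [dir] at h <;> first | exact h.1 | exact h

lemma span2 (hF : Fintype.card F = 32) (i : F ⊕ Bool) (v : F × F × F) :
    ∃ j, j ≠ i ∧ ∃ a b : F, v = a • dir i + b • dir j := by
  classical
  let φ : (({j // j ≠ i} × {b : F // b ≠ 0}) × F) ⊕ F → F × F × F := fun x =>
    match x with
    | Sum.inl x => x.2 • dir i + x.1.2.1 • dir x.1.1.1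
    | Sum.inr a => a • dir i
  have hinj : Function.Injective φ := by
    rintro (⟨⟨⟨j, hj⟩, ⟨b, hb⟩⟩, a⟩ | a) (⟨⟨⟨k, hk⟩, ⟨c, hc⟩⟩, a'⟩ | a') h <;> simp only [φ] at h
    · have hjk : j = k := by
        by_contra hjk
        exact hb (indep3 hF i j k (a - a') b (-c) hj.symm hk.symm hjk (by
          linear_combination (norm := module) h))
      subst hjk
      have h1 : b - c = 0 := indep2 i j (a - a') (b - c) hj.symm (by linear_combination (norm := module) h)
      have h2 : a - a' = 0 := indep2 j i (b - c) (a - a') hj (by linear_combination (norm := module) h)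
      obtain rfl := sub_eq_zero.mp h1
      obtain rfl := sub_eq_zero.mp h2
      rfl
    · exact absurd (indep2 i j (a - a') b hj.symm (by linear_combination (norm := module) h)) hb
    · exact absurd (indep2 i k (a' - a) c hk.symm (by linear_combination (norm := module) -h)) hc
    · have := indep1 i (a - a') (by linear_combination (norm := module) h)
      rw [sub_eq_zero.mp this]
  have hb := (Fintype.bijective_iff_injective_and_card φ).mpr ⟨hinj, by
    simp [Fintype.card_subtype_compl, hF]⟩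
  obtain ⟨x, hx⟩ := hb.2 v
  rcases x with ⟨⟨⟨j, hj⟩, ⟨b, _⟩⟩, a⟩ | a
  · exact ⟨j, hj, a, b, hx.symm⟩
  · obtain ⟨j, hj⟩ : ∃ j : F ⊕ Bool, j ≠ i := by
      rcases i with r | _ | _
      · exact ⟨Sum.inr true, by simp⟩
      · exact ⟨Sum.inr true, by simp⟩
      · exact ⟨Sum.inr false, by simp⟩
    exact ⟨j, hj, a, 0, by rw [← hx]; simp [φ]⟩

end Pool.Agent.H.MP_c6b127_co
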