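import Mathlib
import Pool.Agent.H.MP_c6b127_co.Oval

set_option autoImplicit false

namespace Pool.Agent.H.MP_c6b127_co

variable {F : Type} [Field F]

/-- the affine line through `a` in direction `i` -/
def line (a : F × F × F) (i : F ⊕ Bool) : Set (F × F × F) := {p | ∃ c : F, p = a + c • dir i}

lemma mem_self (a : F × F × F) (i : F ⊕ Bool) : a ∈ line a i := ⟨0, by simp⟩

lemma line_eq {a p : F × F × F} {i : F ⊕ Bool} (h : p ∈ line a i) : line p i = line a i := by
  obtain ⟨c, rfl⟩ := h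
  ext q
  constructor
  · rintro ⟨d, rfl⟩
    exact ⟨c + d, by module⟩
  · rintro ⟨d, rfl⟩
    exact ⟨d - c, by module⟩

lemma dir_eq {a q : F × F × F} {i j : F ⊕ Bool} (hi : q ∈ line a i) (hj : q ∈ line a j)
    (hq : q ≠ a) : i = j := by
  obtain ⟨c, hc⟩ := hi
  obtain ⟨d, hd⟩ := hj
  by_contra hij
  have := indep2 i j c (-d) hij (by linear_combination (norm := module) hd - hc)
  exact hq (by rw [hd, neg_eq_zero.mp this]; simp)

lemma line_inj {a b : F × F × F} {i j : F ⊕ Bool} (h : line a i = line b j) : i = j := by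
  have h1 : line a j = line b j := line_eq (h ▸ mem_self a i)
  have h2 : a + (1 : F) • dir i ∈ line a i := ⟨1, rfl⟩
  refine dir_eq h2 (by rw [h1, ← h]; exact h2) (fun e => ?_)
  exact one_ne_zero (indep1 i (1 : F) (by linear_combination (norm := module) e))

/-- the lines of the quadrangle -/
def Ln (F : Type) [Field F] : Type := {l : Set (F × F × F) // ∃ a i, l = line a i}

instance [Finite F] : Finite (Ln F) := by
  unfold Ln
  infer_instance

/-- the line through a point with given direction -/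
def mkLn (a : F × F × F) (i : F ⊕ Bool) : Ln F := ⟨line a i, a, i, rfl⟩

/-- direction of a line -/
noncomputable def ty (l : Ln F) : F ⊕ Bool := l.2.choose_spec.choose

lemma ty_spec {l : Ln F} {a : F × F × F} {i : F ⊕ Bool} (h : l.1 = line a i) : ty l = i :=
  line_inj (l.2.choose_spec.choose_spec.symm.trans h)

lemma ty_mk (a : F × F × F) (i : F ⊕ Bool) : ty (mkLn a i) = i := ty_spec (a := a) rfl

lemma eq_mk {l : Ln F} {p : F × F × F} (h : p ∈ l.1) : l = mkLn p (ty l) := by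
  obtain ⟨a, i, e⟩ := l.2
  rw [ty_spec e]
  apply Subtype.ext
  rw [e] at h
  exact e.trans (line_eq h).symm

lemma ncard_line [Fintype F] (l : Ln F) : {p | p ∈ l.1}.ncard = Fintype.card F := by
  obtain ⟨a, i, e⟩ := l.2
  have : {p | p ∈ l.1} = (fun c : F => a + c • dir i) '' Set.univ := by
    ext p
    simp only [e, line, Set.mem_ofPred_eq, Set.image_univ, Set.mem_range, eq_comm]
  rw [this, Set.ncard_image_of_injective, Set.ncard_univ, Nat.card_eq_fintype_card]
  intro c d h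
  exact sub_eq_zero.mp (indep1 i (c - d) (by
    simp only at h
    linear_combination (norm := module) h))

lemma ncard_thru (p : F × F × F) (Q : F ⊕ Bool → Prop) :
    {l : Ln F | p ∈ l.1 ∧ Q (ty l)}.ncard = {i | Q i}.ncard := by
  have : {l : Ln F | p ∈ l.1 ∧ Q (ty l)} = mkLn p '' {i | Q i} := by
    ext l
    constructor
    · rintro ⟨h1, h2⟩
      exact ⟨ty l, h2, (eq_mk h1).symm⟩
    · rintro ⟨i, hi, rfl⟩
      exact ⟨mem_self p i, by rw [ty_mk]; exact hi⟩
  rw [this, Set.ncard_image_of_injective]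
  intro i j h
  rw [← ty_mk p i, h, ty_mk]

lemma two_pts (p q : F × F × F) (l m : Ln F) (h1 : p ∈ l.1) (h2 : q ∈ l.1) (h3 : p ∈ m.1)
    (h4 : q ∈ m.1) : p = q ∨ l = m := by
  by_cases hpq : p = q
  · exact Or.inl hpq
  · right
    rw [eq_mk h1] at h2
    rw [eq_mk h3] at h4
    rw [eq_mk h1, eq_mk h3, dir_eq h2 h4 (Ne.symm hpq)]

lemma gq [Fintype F] (hF : Fintype.card F = 32) (p : F × F × F) (l : Ln F) (h : p ∉ l.1) :
    ∃! x : (F × F × F) × Ln F, p ∈ x.2.1 ∧ x.1 ∈ x.2.1 ∧ x.1 ∈ l.1 := by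
  obtain ⟨a, i, e⟩ := l.2
  rw [e] at h ⊢
  obtain ⟨j, hj, c, d, hv⟩ := span2 hF i (a - p)
  refine ⟨(p + d • dir j, mkLn p j), ⟨mem_self p j, ⟨d, rfl⟩,
    ⟨-c, by linear_combination (norm := module) -hv⟩⟩, ?_⟩
  rintro ⟨q, m⟩ ⟨h1, h2, ⟨u, hu⟩⟩
  simp only at h1 h2 hu
  rw [eq_mk h1] at h2 ⊢
  generalize ty m = k at h2 ⊢
  obtain ⟨w, hw⟩ := h2
  have hki : i ≠ k := by
    rintro rfl
    exact h ⟨u - w, by linear_combination (norm := module) hu - hw⟩
  have hw0 : w ≠ 0 := by
    rintro rfl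
    exact h ⟨u, by linear_combination (norm := module) hu - hw⟩
  have hkj : k = j := by
    by_contra hkj
    exact hw0 (indep3 hF i k j (-u - c) w (-d) hki hj.symm hkj (by
      linear_combination (norm := module) hu - hw + hv))
  subst hkj
  have := indep2 i k (-u - c) (w - d) hki (by linear_combination (norm := module) hu - hw + hv)
  rw [hw, sub_eq_zero.mp this]

lemma count [Fintype F] (Q : F ⊕ Bool → Prop) :
    {l : Ln F | Q (ty l)}.ncard * Fintype.card F =
      Fintype.card (F × F × F) * {i | Q i}.ncard := by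
  classical
  have := Fintype.ofFinite (Ln F)
  have := Finset.card_mul_eq_card_mul (s := Finset.univ.filter fun l : Ln F => Q (ty l))
    (t := (Finset.univ : Finset (F × F × F))) (m := Fintype.card F) (n := {i | Q i}.ncard)
    (fun l p => p ∈ l.1) (fun l _ => by
      rw [← ncard_line l, ← Set.ncard_coe_finset]
      congr 1
      ext p
      simp [Finset.bipartiteAbove]) (fun p _ => by
      rw [← ncard_thru p Q, ← Set.ncard_coe_finset]
      congr 1
      ext l
      simp [Finset.bipartiteBelow, and_comm])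
  rw [Finset.card_univ] at this
  rw [← this, ← Set.ncard_coe_finset]
  congr 2
  ext l
  simp

/-- the three special directions -/
def isA (i : F ⊕ Bool) : Prop := i = Sum.inl 0 ∨ i = Sum.inr false ∨ i = Sum.inr true

/-- the group of type preserving collineations -/
def Gp (F : Type) [Field F] : Subgroup (Equiv.Perm (F × F × F) × Equiv.Perm (Ln F)) where
  carrier := {g | (∀ p l, g.1 p ∈ (g.2 l).1 ↔ p ∈ l.1) ∧ ∀ l, isA (ty (g.2 l)) ↔ isA (ty l)}
  one_mem' := ⟨fun _ _ => Iff.rfl, fun _ => Iff.rfl⟩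
  mul_mem' := by
    rintro g h ⟨g1, g2⟩ ⟨h1, h2⟩
    exact ⟨fun p l => (g1 _ _).trans (h1 p l), fun l => (g2 _).trans (h2 l)⟩
  inv_mem' := by
    rintro g ⟨g1, g2⟩
    refine ⟨fun p l => ?_, fun l => ?_⟩
    · have := g1 (g.1⁻¹ p) (g.2⁻¹ l)
      simp only [Equiv.Perm.coe_inv, Equiv.apply_symm_apply] at this
      exact this.symm
    · have := g2 (g.2⁻¹ l)
      simp only [Equiv.Perm.coe_inv, Equiv.apply_symm_apply] at this
      exact this.symm

instance actP : MulAction (Gp F) (F × F × F) where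
  smul g p := g.1.1 p
  one_smul _ := rfl
  mul_smul _ _ _ := rfl

instance actL : MulAction (Gp F) (Ln F) where
  smul g l := g.1.2 l
  one_smul _ := rfl
  mul_smul _ _ _ := rfl

lemma mkG [Finite F] (h : F × F × F → F × F × F) (hinj : Function.Injective h)
    (hlin : ∀ (a : F × F × F) (c : F) (v : F × F × F), h (a + c • v) = h a + c • h v)
    (hd : ∀ i, ∃ j, ∃ c : F, c ≠ 0 ∧ h (dir i) = c • dir j ∧ (isA j ↔ isA i)) (b : F × F × F) :
    ∃ g : Gp F, ∀ p : F × F × F, g • p = h p + b := by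
  have hi : Function.Injective fun p => h p + b := fun p q e => hinj (add_right_cancel e)
  have key : ∀ a i, ∃ j, (fun p => h p + b) '' line a i = line (h a + b) j ∧ (isA j ↔ isA i) := by
    intro a i
    obtain ⟨j, c, hc, e, hA⟩ := hd i
    refine ⟨j, ?_, hA⟩
    ext p
    constructor
    · rintro ⟨q, ⟨d, rfl⟩, rfl⟩
      exact ⟨d * c, by simp only [hlin, e]; module⟩
    · rintro ⟨d, rfl⟩
      refine ⟨a + (d / c) • dir i, ⟨d / c, rfl⟩, ?_⟩
      simp only [hlin, e, smul_smul, div_mul_cancel₀ d hc]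
      module
  let f : Ln F → Ln F := fun l => ⟨(fun p => h p + b) '' l.1, by
    obtain ⟨a, i, e⟩ := l.2
    obtain ⟨j, hj, -⟩ := key a i
    exact ⟨_, j, by rw [e, hj]⟩⟩
  have hf : Function.Injective f := fun l m e =>
    Subtype.ext (Set.image_injective.mpr hi (congrArg Subtype.val e))
  refine ⟨⟨(Equiv.ofBijective _ (Finite.injective_iff_bijective.mp hi),
    Equiv.ofBijective f (Finite.injective_iff_bijective.mp hf)), fun p l => ?_, fun l => ?_⟩,
    fun p => rfl⟩
  · exact hi.mem_set_image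
  · obtain ⟨a, i, e⟩ := l.2
    obtain ⟨j, hj, hA⟩ := key a i
    have : ty (f l) = j := ty_spec (a := h a + b) (by simp only [f]; rw [e, hj])
    rw [ty_spec e]
    exact (iff_of_eq (congrArg isA this)).trans hA

lemma mkD [Finite F] (c t : F) (hc : c ≠ 0) (ht : t ≠ 0) (b : F × F × F) :
    ∃ g : Gp F, ∀ p : F × F × F, g • p = (c * p.1, c * t * p.2.1, c * t ^ 6 * p.2.2) + b := by
  refine mkG (fun p => (c * p.1, c * t * p.2.1, c * t ^ 6 * p.2.2)) ?_ ?_ ?_ b
  · rintro ⟨x, y, z⟩ ⟨x', y', z'⟩ e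
    simpa [hc, ht] using e
  · rintro ⟨x, y, z⟩ d ⟨x', y', z'⟩
    simp only [Prod.smul_mk, smul_eq_mul, Prod.mk_add_mk, Prod.mk.injEq]
    refine ⟨by ring, by ring, by ring⟩
  · rintro (s | _ | _)
    · exact ⟨Sum.inl (t * s), c, hc, by simp [dir, mul_pow, mul_assoc], by simp [isA, ht]⟩
    · exact ⟨Sum.inr false, c * t, mul_ne_zero hc ht, by simp [dir], Iff.rfl⟩
    · exact ⟨Sum.inr true, c * t ^ 6, mul_ne_zero hc (pow_ne_zero _ ht), by simp [dir], Iff.rfl⟩

lemma mkC [Fintype F] (hF : Fintype.card F = 32) (b : F × F × F) :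
    ∃ g : Gp F, ∀ p : F × F × F, g • p = (p.2.2, p.1, p.2.1) + b := by
  refine mkG (fun p => (p.2.2, p.1, p.2.1)) ?_ ?_ ?_ b
  · rintro ⟨x, y, z⟩ ⟨x', y', z'⟩ e
    simp only [Prod.mk.injEq] at e ⊢
    tauto
  · rintro ⟨x, y, z⟩ d ⟨x', y', z'⟩
    rfl
  · rintro (s | _ | _)
    · by_cases hs : s = 0
      · subst hs
        exact ⟨Sum.inr false, 1, one_ne_zero, by simp [dir], by simp [isA]⟩
      · have h31 := pow31 hF s hs
        refine ⟨Sum.inl (s ^ 25), s ^ 6, pow_ne_zero _ hs, ?_, by simp [isA, hs]⟩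
        simp only [dir, Prod.smul_mk, smul_eq_mul, mul_one, Prod.mk.injEq, true_and]
        refine ⟨by linear_combination -h31, ?_⟩
        calc s = s * (s ^ 31) ^ 5 := by rw [h31]; ring
          _ = s ^ 6 * (s ^ 25) ^ 6 := by ring
    · exact ⟨Sum.inr true, 1, one_ne_zero, by simp [dir], by simp [isA]⟩
    · exact ⟨Sum.inl 0, 1, one_ne_zero, by simp [dir], by simp [isA]⟩

lemma all_mem [Fintype F] (hF : Fintype.card F = 32) (W : Set (F × F × F)) (h0 : 0 ∈ W)
    (hadd : ∀ v ∈ W, ∀ w ∈ W, v + w ∈ W)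
    (hD : ∀ c t : F, c ≠ 0 → t ≠ 0 → ∀ p ∈ W, (c * p.1, c * t * p.2.1, c * t ^ 6 * p.2.2) ∈ W)
    (hC : ∀ p ∈ W, (p.2.2, p.1, p.2.1) ∈ W) (w : F × F × F) (hw : w ∈ W) (hw0 : w ≠ 0)
    (v : F × F × F) : v ∈ W := by
  classical
  obtain ⟨a, b, c, hc, hm⟩ : ∃ a b c : F, c ≠ 0 ∧ (a, b, c) ∈ W := by
    obtain ⟨x, y, z⟩ := w
    by_cases hz : z = 0
    · by_cases hy : y = 0
      · exact ⟨y, z, x, fun hx => hw0 (by simp [hx, hy, hz]), hC _ (hC _ hw)⟩
      · exact ⟨z, x, y, hy, hC _ hw⟩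
    · exact ⟨x, y, z, hz, hw⟩
  obtain ⟨t, ht⟩ : ∃ t : F, t ∉ ({0, 1} : Finset F) := by
    by_contra hh
    push Not at hh
    have h1 := Finset.card_le_card (s := Finset.univ) (t := ({0, 1} : Finset F)) fun t _ => hh t
    have h2 := Finset.card_le_two (a := (0 : F)) (b := 1)
    rw [Finset.card_univ, hF] at h1
    omega
  simp only [Finset.mem_insert, Finset.mem_singleton, not_or] at ht
  obtain ⟨t0, t1⟩ := ht
  have e1 : t ^ 6 - 1 ≠ 0 := fun h => t1 (six_inj hF t 1 (by linear_combination h))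
  have e2 : t ^ 6 - t ≠ 0 := fun h => by
    have h5 : t ^ 5 = 1 := mul_left_cancel₀ t0 (by linear_combination h)
    have h31 := pow31 hF t t0
    apply t1
    calc t = t * (t ^ 5) ^ 6 := by rw [h5]; ring
      _ = 1 := by rw [← h31]; ring
  have hu : ((0 : F), (t - 1) * b, (t ^ 6 - 1) * c) ∈ W := by
    convert hadd _ (hD 1 t one_ne_zero t0 _ hm) _ (hD (-1) 1 (by simp) one_ne_zero _ hm) using 1
    simp only [Prod.mk_add_mk, Prod.mk.injEq]
    refine ⟨by ring, by ring, by ring⟩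
  have hz : ((0 : F), (0 : F), (t ^ 6 - t) * ((t ^ 6 - 1) * c)) ∈ W := by
    convert hadd _ (hD 1 t one_ne_zero t0 _ hu) _ (hD (-t) 1 (by simpa using t0) one_ne_zero _ hu)
      using 1
    simp only [Prod.mk_add_mk, Prod.mk.injEq]
    refine ⟨by ring, by ring, by ring⟩
  have h3 : ∀ z : F, ((0 : F), (0 : F), z) ∈ W := by
    intro z
    by_cases hz0 : z = 0
    · subst hz0
      exact h0
    · have hk := mul_ne_zero e2 (mul_ne_zero e1 hc)
      convert hD (z / ((t ^ 6 - t) * ((t ^ 6 - 1) * c))) 1 (div_ne_zero hz0 hk) one_ne_zero _ hz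
        using 1
      simp only [mul_zero, one_pow, mul_one, div_mul_cancel₀ z hk]
  obtain ⟨x, y, z⟩ := v
  convert hadd _ (hadd _ (hC _ (h3 x)) _ (hC _ (hC _ (h3 y)))) _ (h3 z) using 1
  simp

lemma prim [Fintype F] (hF : Fintype.card F = 32) : MulAction.IsPreprimitive (Gp F) (F × F × F) := by
  have : MulAction.IsPretransitive (Gp F) (F × F × F) := ⟨fun x y => by
    obtain ⟨g, hg⟩ := mkD (1 : F) 1 one_ne_zero one_ne_zero (y - x)
    exact ⟨g, by rw [hg]; simp⟩⟩
  refine ⟨fun {B} hB => ?_⟩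
  by_cases hs : B.Subsingleton
  · exact Or.inl hs
  right
  obtain ⟨x, hx, y, hy, hxy⟩ := Set.not_subsingleton_iff.mp hs
  have key : ∀ g : Gp F, g • x ∈ B → ∀ p ∈ B, g • p ∈ B := fun g hg p hp => by
    rw [← hB.smul_eq_of_mem hx hg]
    exact Set.smul_mem_smul_set hp
  have := all_mem hF {v | x + v ∈ B} (by simpa using hx) (fun v hv w hw => by
      obtain ⟨g, hg⟩ := mkD (1 : F) 1 one_ne_zero one_ne_zero w
      have := key g (by rw [hg]; simpa using hw) _ hv
      rw [hg] at this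
      simp only [Set.mem_ofPred_eq]
      convert this using 1
      ext <;> simp <;> ring)
    (fun c t hc ht p hp => by
      obtain ⟨g, hg⟩ := mkD c t hc ht (x - (c * x.1, c * t * x.2.1, c * t ^ 6 * x.2.2))
      have := key g (by rw [hg]; simpa using hx) _ hp
      rw [hg] at this
      simp only [Set.mem_ofPred_eq]
      convert this using 1
      ext <;> simp <;> ring)
    (fun p hp => by
      obtain ⟨g, hg⟩ := mkC hF (x - (x.2.2, x.1, x.2.1))
      have := key g (by rw [hg]; simpa using hx) _ hp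
      rw [hg] at this
      simp only [Set.mem_ofPred_eq]
      convert this using 1
      ext <;> simp <;> ring)
    (y - x) (by simpa using hy) (sub_ne_zero.mpr hxy.symm)
  refine Set.eq_univ_of_forall fun p => ?_
  simpa using this (p - x)

lemma ne_card [Fintype F] (hF : Fintype.card F = 32) :
    {l : Ln F | isA (ty l)}.ncard ≠ {l : Ln F | ¬ isA (ty l)}.ncard := by
  intro h
  have h1 := count (F := F) isA
  have h2 := count (F := F) fun i => ¬ isA i
  have h3 : {i : F ⊕ Bool | isA i}.ncard = 3 :=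
    Set.ncard_eq_three.mpr ⟨Sum.inl 0, Sum.inr false, Sum.inr true, by simp, by simp, by simp, rfl⟩
  have h4 := Set.ncard_add_ncard_compl {i : F ⊕ Bool | isA i}
  rw [h3, Nat.card_eq_fintype_card, Fintype.card_sum, hF, Fintype.card_bool] at h4
  have h5 : {i : F ⊕ Bool | ¬ isA i}.ncard = 31 := by
    have : {i : F ⊕ Bool | ¬ isA i} = {i : F ⊕ Bool | isA i}ᶜ := rfl
    rw [this]
    omega
  rw [h3, h] at h1
  rw [h5, h1] at h2
  simp only [Fintype.card_prod, hF] at h2
  omega

end Pool.Agent.H.MP_c6b127_co
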